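import Mathlib
import Pool.Agent.H31.Spec
import Pool.Agent.H54.Spec

set_option autoImplicit false
open Matrix Finset SimpleGraph

namespace Pool.Agent.Results.MP_1a9240_co.Lowers

variable {V : Type} [Fintype V] [DecidableEq V]

/-- The Ricci matrix, indexed by the edges. -/
noncomputable def R (G : SimpleGraph V) [DecidableRel G.Adj] : Matrix G.edgeSet G.edgeSet ℝ :=
  fun e e' => if e = e' then -∑ x with x ∈ e.1, 1 / (G.degree x : ℝ)
    else ∑ x with x ∈ e.1 ∧ x ∈ e'.1, 1 / (G.degree x : ℝ)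

/-- Attach a new leaf `none` at `v`. -/
def attach (G : SimpleGraph V) (v : V) : SimpleGraph (Option V) where
  Adj
    | some a, some b => G.Adj a b
    | none, none => False
    | some a, none => a = v
    | none, some a => a = v
  symm := ⟨by rintro (_ | a) (_ | b) h; exacts [h, h, h, h.symm]⟩
  loopless := ⟨by rintro (_ | a) h; exacts [h, G.irrefl h]⟩

instance (G : SimpleGraph V) [DecidableRel G.Adj] (v : V) : DecidableRel (attach G v).Adj :=
  fun a b => match a, b with
  | some a, some b => inferInstanceAs (Decidable (G.Adj a b))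
  | none, none => isFalse id
  | some a, none => inferInstanceAs (Decidable (a = v))
  | none, some a => inferInstanceAs (Decidable (a = v))

theorem act (G : SimpleGraph V) [DecidableRel G.Adj] (F : Sym2 V → ℝ) {a b : V} (h : G.Adj a b) :
    (R G *ᵥ fun e => F e) ⟨s(a, b), h⟩ = (∑ y ∈ G.neighborFinset a, F s(a, y) - 2 * F s(a, b)) /
      G.degree a + (∑ y ∈ G.neighborFinset b, F s(b, y) - 2 * F s(a, b)) / G.degree b := by
  have k : ∀ x, ∑ y ∈ G.neighborFinset x, F s(x, y) =
      ∑ e : G.edgeSet, if x ∈ e.1 then F e else 0 := fun x => by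
    rw [← sum_filter]
    refine sum_bij (fun y hy => ⟨s(x, y), by simpa using hy⟩) (by simp) (fun y hy z _ e => ?_)
      (fun ⟨e, he⟩ hx => ?_) (by simp)
    · simpa using Sym2.congr_right.mp (congrArg Subtype.val e)
    · obtain ⟨y, rfl⟩ := Sym2.mem_iff_exists.mp (mem_filter.mp hx).2
      exact ⟨y, by simpa using he, rfl⟩
  have p : ∀ f : V → ℝ, ∑ x with x ∈ s(a, b), f x = f a + f b := fun f => by
    rw [show (univ.filter fun x => x ∈ s(a, b)) = {a, b} by ext; simp, sum_pair h.ne]
  have : ∀ e, R G ⟨s(a, b), h⟩ e * F e = (if a ∈ e.1 then F e else 0) / G.degree a +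
      (if b ∈ e.1 then F e else 0) / G.degree b - if e = ⟨s(a, b), h⟩ then
        2 * F s(a, b) / G.degree a + 2 * F s(a, b) / G.degree b else 0 := fun e => by
    by_cases c : e = ⟨s(a, b), h⟩
    · simp only [R, c, if_true, p, Sym2.mem_mk_left, Sym2.mem_mk_right]; ring
    · rw [R, if_neg (Ne.symm c), if_neg c, ← filter_filter, sum_filter, p]
      split_ifs <;> ring
  simp only [mulVec, dotProduct, this, k, sum_sub_distrib, sum_add_distrib, ← sum_div, sum_ite_eq',
    mem_univ, if_true]
  ring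

theorem herm (G : SimpleGraph V) [DecidableRel G.Adj] : (R G).IsHermitian := by
  ext e e'
  by_cases h : e = e'
  · simp [h]
  · simp [R, h, Ne.symm h, and_comm]

theorem cw {n : Type} [Fintype n] [DecidableEq n] (A : Matrix n n ℝ)
    (h : ∀ i j, i ≠ j → 0 ≤ A i j) (f : n → ℝ) (hf : ∀ i, 0 < f i) (μ : ℝ) (m0 : 0 ≤ μ)
    (hm : ∀ i, (A *ᵥ f) i ≤ μ * f i) : sSup (spectrum ℝ A) ≤ μ := by
  refine Real.sSup_le (fun l hl => ?_) m0
  obtain ⟨x, x0, hx⟩ := H31.Spec.eigvec hl
  obtain ⟨j, hj⟩ := Function.ne_iff.mp x0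
  have : Nonempty n := ⟨j⟩
  obtain ⟨i, hi⟩ := Finite.exists_max fun i => |x i| / f i
  obtain ⟨t, ht⟩ : ∃ t, t = |x i| / f i := ⟨_, rfl⟩
  have t0 : 0 < t := ht ▸ (div_pos (abs_pos.mpr hj) (hf j)).trans_le (hi j)
  have ti : |x i| = t * f i := by rw [ht, div_mul_cancel₀ _ (hf i).ne']
  have e1 := congrFun hx i
  have e2 := hm i
  simp only [mulVec, dotProduct, Pi.smul_apply, smul_eq_mul, ← add_sum_erase _ _ (mem_univ i)] at e1 e2
  have : |∑ k ∈ univ.erase i, A i k * x k| ≤ t * ∑ k ∈ univ.erase i, A i k * f k := by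
    rw [mul_sum]
    refine (abs_sum_le_sum_abs _ _).trans (sum_le_sum fun k hk => ?_)
    have := h i k (ne_of_mem_erase hk).symm
    rw [abs_mul, abs_of_nonneg this, mul_left_comm]
    exact mul_le_mul_of_nonneg_left ((div_le_iff₀ (hf k)).mp (ht ▸ hi k)) this
  rw [show ∑ k ∈ univ.erase i, A i k * x k = (l - A i i) * x i by linarith, abs_mul, ti] at this
  have p := mul_pos t0 (hf i)
  nlinarith [mul_le_mul_of_nonneg_right (le_abs_self (l - A i i)) p.le]

variable {N : ℕ}

def T : SimpleGraph (Fin N) where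
  Adj x y := y < x ∧ (x.1 + 11) / 15 = y ∨ x < y ∧ (y.1 + 11) / 15 = x
  symm := ⟨fun _ _ => Or.symm⟩
  loopless := ⟨by simp⟩

theorem tadj (x y : Fin N) :
    T.Adj x y ↔ y.1 < x ∧ (x.1 + 11) / 15 = y ∨ x.1 < y ∧ (y.1 + 11) / 15 = x := .rfl

instance : DecidableRel (T (N := N)).Adj := fun x y => decidable_of_iff' _ (tadj x y)

def lev (x : ℕ) : ℕ := if x = 0 then 0 else if x ≤ 3 then 1 else if x ≤ 48 then 2 else
  if x ≤ 723 then 3 else 4

theorem ls (x : ℕ) : x = 0 ∧ lev x = 0 ∨ 0 < x ∧ x ≤ 3 ∧ lev x = 1 ∨ 3 < x ∧ x ≤ 48 ∧ lev x = 2 ∨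
    48 < x ∧ x ≤ 723 ∧ lev x = 3 ∨ 723 < x ∧ lev x = 4 := by
  unfold lev; split_ifs <;> simp <;> omega

theorem nb (hN : N = 10849) (u : ℕ → ℝ) (x : Fin N) : ∑ y ∈ T.neighborFinset x, u (lev y) =
    (if lev x = 0 then 0 else u (lev x - 1)) +
      (if lev x = 0 then 3 else if lev x = 4 then 0 else 15) * u (lev x + 1) := by
  rw [neighborFinset_eq_filter, sum_filter]
  simp only [tadj]
  rw [Fin.sum_univ_eq_sum_range fun y => if y < x ∧ (x.1 + 11) / 15 = y ∨ x.1 < y ∧
    (y + 11) / 15 = x then u (lev y) else 0, ← sum_filter, filter_or, sum_union (by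
      simp only [disjoint_filter]; omega)]
  have := x.2
  generalize x.1 = x at *
  congr 1
  · by_cases h : x = 0
    · simp [h, lev]
    · rw [show (range N).filter _ = {(x + 11) / 15} by ext; simp; omega, sum_singleton,
        if_neg (by have := ls x; omega)]
      congr 1; unfold lev; split_ifs <;> omega
  · rw [sum_congr rfl (g := fun _ => u (lev x + 1)) fun y hy => by
      simp only [mem_filter, mem_range] at hy
      congr 1; unfold lev; split_ifs <;> omega, sum_const, nsmul_eq_mul]
    congr 1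
    by_cases h : x = 0
    · rw [show (range N).filter _ = Icc 1 3 by ext; simp; omega]; simp [h, lev]
    by_cases h' : x ≤ 723
    · rw [show (range N).filter _ = Icc (15 * x - 11) (15 * x + 3) by ext; simp; omega,
        Nat.card_Icc, show 15 * x + 3 + 1 - (15 * x - 11) = 15 by omega,
        if_neg (by have := ls x; omega), if_neg (by have := ls x; omega)]
      simp
    · rw [show (range N).filter _ = ∅ by ext; simp; omega,
        if_neg (by have := ls x; omega), if_pos (by have := ls x; omega)]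
      simp

theorem dg (hN : N = 10849) (x : Fin N) :
    (T.degree x : ℝ) = if lev x = 0 then 3 else if lev x = 4 then 1 else 16 := by
  have := nb hN (fun _ => 1) x
  rw [sum_const, card_neighborFinset_eq_degree, nsmul_eq_mul, mul_one] at this
  rw [this]; split_ifs <;> norm_num

theorem lv {a b : Fin N} (hN : N = 10849) (h : T.Adj a b) : lev a = 0 ∧ lev b = 1 ∨ lev a = 1 ∧ lev b = 2 ∨
    lev a = 2 ∧ lev b = 3 ∨ lev a = 3 ∧ lev b = 4 ∨ lev b = 0 ∧ lev a = 1 ∨ lev b = 1 ∧ lev a = 2 ∨
    lev b = 2 ∧ lev a = 3 ∨ lev b = 3 ∧ lev a = 4 := by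
  have := a.2
  have := b.2
  rw [tadj] at h
  unfold lev; split_ifs <;> omega

theorem nb' (G : SimpleGraph V) [DecidableRel G.Adj] (v x : V) (f : Option V → ℝ) :
    ∑ y ∈ (attach G v).neighborFinset (some x), f y =
      (if x = v then f none else 0) + ∑ y ∈ G.neighborFinset x, f (some y) := by
  simp only [neighborFinset_eq_filter, sum_filter, Fintype.sum_option]; rfl

theorem nb'' (G : SimpleGraph V) [DecidableRel G.Adj] (v : V) (f : Option V → ℝ) :
    ∑ y ∈ (attach G v).neighborFinset none, f y = f v := by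
  simp only [neighborFinset_eq_filter, sum_filter, Fintype.sum_option]
  exact (zero_add _).trans (by
    exact (sum_congr rfl (g := fun y => if y = v then f y else 0) fun _ _ => rfl).trans (by simp))

theorem result : ∃ (V : Type) (_ : Fintype V) (_ : DecidableEq V) (G : SimpleGraph V)
    (_ : DecidableRel G.Adj) (v : V), G.IsTree ∧ G.degree v = 3 ∧
    sSup (spectrum ℝ (R (attach G v))) < sSup (spectrum ℝ (R G)) := by
  obtain ⟨M, hN⟩ : ∃ M, M + 2 = 10849 := ⟨10847, rfl⟩
  have cn : (T (N := M + 2)).Connected := by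
    refine (connected_iff_exists_forall_reachable _).mpr ⟨0, fun ⟨x, hx⟩ => ?_⟩
    induction x using Nat.strong_induction_on with
    | _ x ih =>
      rcases x.eq_zero_or_pos with rfl | h
      · rfl
      · exact (ih ((x + 11) / 15) (by omega) (by omega)).trans
          (Adj.reachable (Or.inr ⟨show (x + 11) / 15 < x by omega, rfl⟩))
  have z : ∀ x : Fin (M + 2), x = 0 ↔ lev x = 0 := fun x => by
    rw [Fin.ext_iff, Fin.val_zero]; unfold lev; split_ifs <;> simp [*]
  refine ⟨Fin (M + 2), inferInstance, inferInstance, T, inferInstance, 0, isTree_iff_connected_and_card.mpr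
    ⟨cn, le_antisymm ?_ cn.card_vert_le_card_edgeSet_add_one⟩, ?_,
    lt_of_le_of_lt (b := 105343 / 100000) ?_ ?_⟩
  · have := Nat.card_le_card_of_surjective (α := Fin (M + 1)) (β := T.edgeSet) (fun x =>
      ⟨s(x.succ, ⟨(x.1 + 12) / 15, by omega⟩), Or.inl ⟨show (x.1 + 12) / 15 < x.1 + 1 by omega, rfl⟩⟩) ?_
    · simpa using this
    · rintro ⟨⟨a, b⟩, h⟩
      rcases (tadj a b).mp h with h | h
      · exact ⟨⟨a.1 - 1, by omega⟩, by simp [Fin.ext_iff]; omega⟩
      · exact ⟨⟨b.1 - 1, by omega⟩, by simp [Fin.ext_iff]; omega⟩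
  · exact_mod_cast (dg hN 0).trans (if_pos rfl)
  · let q : ℕ → ℝ := fun k => if k = 1 then 23762289607357 / 244140625000 else if k = 2 then 3179416399 / 39062500 else if k = 3 then 124093 / 6250 else if k = 4 then 1 / 1 else 23762289607357 / 749814453125
    let l : Option (Fin (M + 2)) → ℕ := fun x => x.elim 5 fun y => lev y
    have d1 := fun x => nb' T (0 : Fin (M + 2)) x fun _ => 1
    have d2 := nb'' T (0 : Fin (M + 2)) fun _ => 1
    simp only [sum_const, card_neighborFinset_eq_degree, nsmul_eq_mul, mul_one, dg hN, z] at d1 d2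
    refine cw (R (attach T (0 : Fin (M + 2)))) (fun i j h => ?_)
      (fun e => Sym2.lift ⟨fun x y => q (max (l x) (l y)),
      fun _ _ => by simp only [max_comm]⟩ e.1) ?_ (105343 / 100000) (by norm_num) ?_
    · rw [R, if_neg h]; positivity
    · rintro ⟨⟨a, b⟩, -⟩
      simp only [Sym2.lift_mk, q]; split_ifs <;> norm_num
    · have n := fun x : Fin (M + 2) => nb hN (fun k => q (max (lev x) k)) x
      rintro ⟨⟨_ | a, _ | b⟩, h⟩
      · exact h.elim
      · obtain rfl : b = 0 := h
        rw [act _ _ (show (attach T 0).Adj none (some 0) from rfl)]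
        simp only [Sym2.lift_mk, nb', nb'', d1, d2, l, Option.elim, n]
        norm_num [lev, q]
      · obtain rfl : a = 0 := h
        rw [act _ _ (show (attach T 0).Adj (some 0) none from rfl)]
        simp only [Sym2.lift_mk, nb', nb'', d1, d2, l, Option.elim, n]
        norm_num [lev, q]
      · rw [act _ _ h]
        simp only [Sym2.lift_mk, nb', d1, l, Option.elim, n, z]
        rcases lv hN h with h | h | h | h | h | h | h | h <;> norm_num [h.1, h.2, q]
  · let q : ℕ → ℝ := fun k => if k = 1 then 23791410685673 / 244140625000 else if k = 2 then 3180034159 / 39062500 else if k = 3 then 124097 / 6250 else if k = 4 then 1 / 1 else 71374232057019 / 2249482421875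
    obtain ⟨F, hF⟩ : ∃ F : Sym2 (Fin (M + 2)) → ℝ, ∀ x y, F s(x, y) = q (max (lev x) (lev y)) :=
      ⟨Sym2.lift ⟨fun x y => q (max (lev x) (lev y)), fun _ _ => by simp only [max_comm]⟩, fun _ _ => rfl⟩
    have p : ∀ e, 0 < F e := by
      rintro ⟨a, b⟩
      simp only [hF, q]; split_ifs <;> norm_num
    have r := H54.Spec.rayleigh _ (herm (T (N := M + 2))) fun e => F e
    have p2 : 0 < (fun e : (T (N := M + 2)).edgeSet => F e) ⬝ᵥ fun e => F e :=
      sum_pos (fun e _ => mul_pos (p _) (p _)) ⟨⟨s(0, 1), Or.inr (by simp)⟩, mem_univ _⟩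
    have : 105347 / 100000 * ((fun e : (T (N := M + 2)).edgeSet => F e) ⬝ᵥ fun e => F e) ≤
        (fun e : (T (N := M + 2)).edgeSet => F e) ⬝ᵥ R T *ᵥ fun e => F e := by
      rw [dotProduct, dotProduct, mul_sum]
      refine sum_le_sum fun e _ => ?_
      rw [mul_left_comm]
      refine mul_le_mul_of_nonneg_left ?_ (p _).le
      obtain ⟨⟨a, b⟩, h⟩ := e
      have n := fun x : Fin (M + 2) => nb hN (fun k => q (max (lev x) k)) x
      rw [act _ _ h]
      simp only [hF, n, dg hN]
      rcases lv hN h with h | h | h | h | h | h | h | h <;> norm_num [h.1, h.2, q]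
    nlinarith

end Pool.Agent.Results.MP_1a9240_co.Lowers
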